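import Mathlib
import Pool.Agent.Helper728.Coag.Brouwer

/-!
# Unimodular rows over graded subalgebras of Laurent polynomial rings

For every `d` there is a Noetherian ring `R` of Krull dimension `d` (namely `ℝ[t₁, …, t_d]`) such
that for every `n ≥ max (d + 2) 3` there is a graded subalgebra `A` of a Laurent polynomial ring
over `R` with a unimodular row of length `n` which is not the first row of an elementary matrix.
The row is the universal unimodular row `(x₁, …, xₙ)` with `∑ xᵢ yᵢ = 1`; an elementary completion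
would give a continuous nowhere vanishing map on the ball which is the identity on the sphere,
against Brouwer's theorem.
-/

set_option autoImplicit false

namespace Pool.Agent.Results.MP_aa4be7_al.ElementaryFails

/-- The Laurent polynomial ring `R[X₁^{±1}, …, X_m^{±1}]`, as the group algebra of `ℤ^m`. -/
abbrev Laurent (R : Type) [CommRing R] (m : ℕ) : Type := AddMonoidAlgebra R (Fin m → ℤ)

/-- Total degree of an exponent vector. -/
noncomputable def totalDeg (m : ℕ) : (Fin m → ℤ) →+ ℤ where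
  toFun a := ∑ i, a i
  map_zero' := by simp
  map_add' a b := by simp [Finset.sum_add_distrib]

/-- The component of total degree `k`: the `R`-span of the Laurent monomials of total degree `k`. -/
noncomputable def degPart (R : Type) [CommRing R] (m : ℕ) (k : ℤ) : Submodule R (Laurent R m) :=
  Submodule.span R {f | ∃ a : Fin m → ℤ, totalDeg m a = k ∧ f = AddMonoidAlgebra.single a 1}

/-- `A` is a graded subalgebra: it is the sum of its intersections with the degree components. -/
def IsGraded {R : Type} [CommRing R] {m : ℕ} (A : Subalgebra R (Laurent R m)) : Prop :=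
  Subalgebra.toSubmodule A = ⨆ k : ℤ, Subalgebra.toSubmodule A ⊓ degPart R m k

/-- Unimodular rows of length `n` over `A`. -/
def Um (A : Type) [CommRing A] (n : ℕ) : Set (Fin n → A) :=
  {v | ∃ w : Fin n → A, ∑ i, v i * w i = 1}

/-- The elementary group: the subgroup of `GLₙ(A)` generated by the matrices `1 + c eᵢⱼ`,
`i ≠ j`. -/
def E (A : Type) [CommRing A] (n : ℕ) : Subgroup (GL (Fin n) A) :=
  Subgroup.closure {g | ∃ i j : Fin n, i ≠ j ∧ ∃ c : A,
    (g : Matrix (Fin n) (Fin n) A) = 1 + Matrix.single i j c}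

/-- The first row of a matrix. -/
def firstRow {A : Type} [CommRing A] {n : ℕ} [NeZero n] (g : GL (Fin n) A) : Fin n → A :=
  fun j => (g : Matrix (Fin n) (Fin n) A) 0 j

/-- `Umₙ(A) = e₁ Eₙ(A)`: every unimodular row of length `n` over `A` is the first row of an
elementary matrix. -/
def ElementaryRows (A : Type) [CommRing A] (n : ℕ) [NeZero n] : Prop :=
  ∀ v ∈ Um A n, ∃ g ∈ E A n, firstRow g = v

/-- There is a graded `R`-subalgebra `A` of a Laurent polynomial ring over `R` with
`Umₙ(A) ≠ e₁ Eₙ(A)`. -/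
def HasCounterexample (R : Type) [CommRing R] (n : ℕ) [NeZero n] : Prop :=
  ∃ m : ℕ, 1 ≤ m ∧ ∃ A : Subalgebra R (Laurent R m), IsGraded A ∧ ¬ ElementaryRows A n

/-! ### The graded subalgebra -/

section grading

variable {R : Type} [CommRing R] {m : ℕ}

theorem single_mem_degPart (a : Fin m → ℤ) (r : R) :
    (AddMonoidAlgebra.single a r : Laurent R m) ∈ degPart R m (totalDeg m a) := by
  have : (AddMonoidAlgebra.single a r : Laurent R m) = r • AddMonoidAlgebra.single a 1 := by
    rw [AddMonoidAlgebra.smul_single, smul_eq_mul, mul_one]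
  rw [this]
  exact Submodule.smul_mem _ _ (Submodule.subset_span ⟨a, rfl, rfl⟩)

theorem mul_mem_degPart {k l : ℤ} {f g : Laurent R m} (hf : f ∈ degPart R m k)
    (hg : g ∈ degPart R m l) : f * g ∈ degPart R m (k + l) := by
  have h : degPart R m k * degPart R m l ≤ degPart R m (k + l) := by
    unfold degPart
    rw [Submodule.span_mul_span]
    refine Submodule.span_mono ?_
    rintro _ ⟨_, ⟨a, ha, rfl⟩, _, ⟨b, hb, rfl⟩, rfl⟩
    refine ⟨a + b, by rw [map_add, ha, hb], ?_⟩
    simp [AddMonoidAlgebra.single_mul_single]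
  exact h (Submodule.mul_mem_mul hf hg)

/-- A subalgebra generated by homogeneous elements is graded. -/
theorem isGraded_adjoin (S : Set (Laurent R m)) (hS : ∀ s ∈ S, ∃ k, s ∈ degPart R m k) :
    IsGraded (Algebra.adjoin R S) := by
  set A := Algebra.adjoin R S with hA
  refine le_antisymm ?_ (iSup_le fun k => inf_le_left)
  set T : Submodule R (Laurent R m) := ⨆ k : ℤ, Subalgebra.toSubmodule A ⊓ degPart R m k with hT
  have hle : ∀ k, Subalgebra.toSubmodule A ⊓ degPart R m k ≤ T := fun k =>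
    le_iSup (fun k : ℤ => Subalgebra.toSubmodule A ⊓ degPart R m k) k
  have hone : (1 : Laurent R m) ∈ degPart R m 0 := by
    have := single_mem_degPart (R := R) (0 : Fin m → ℤ) 1
    rwa [map_zero] at this
  have hmul : ∀ f ∈ T, ∀ g ∈ T, f * g ∈ T := by
    intro f hf g hg
    refine Submodule.iSup_induction _ (motive := fun f => f * g ∈ T) hf ?_ ?_ ?_
    · intro k f hf
      refine Submodule.iSup_induction _ (motive := fun g => f * g ∈ T) hg ?_ ?_ ?_
      · intro l g hg
        exact hle (k + l) ⟨A.mul_mem hf.1 hg.1, mul_mem_degPart hf.2 hg.2⟩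
      · rw [mul_zero]; exact T.zero_mem
      · intro x y hx hy
        rw [mul_add]; exact T.add_mem hx hy
    · rw [zero_mul]; exact T.zero_mem
    · intro x y hx hy
      rw [add_mul]; exact T.add_mem hx hy
  intro f hf
  have hf' : f ∈ Algebra.adjoin R S := hf
  refine Algebra.adjoin_induction (p := fun f _ => f ∈ T) ?_ ?_ ?_ ?_ hf'
  · intro s hs
    obtain ⟨k, hk⟩ := hS s hs
    exact hle k ⟨Algebra.subset_adjoin hs, hk⟩
  · intro r
    refine hle 0 ⟨A.algebraMap_mem r, ?_⟩
    rw [Algebra.algebraMap_eq_smul_one]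
    exact Submodule.smul_mem _ _ hone
  · intro x y _ _ hx hy
    exact T.add_mem hx hy
  · intro x y _ _ hx hy
    exact hmul x hx y hy

end grading

/-! ### The example -/

section example_

variable (R : Type) [CommRing R] (n : ℕ) [NeZero n]

/-- Exponent vector of `Xᵢ`. -/
def eX (i : Fin n) : Fin (n + n) → ℤ := Pi.single (Fin.castAdd n i) 1

/-- Exponent vector of `Yᵢ`. -/
def eY (i : Fin n) : Fin (n + n) → ℤ := Pi.single (Fin.natAdd n i) 1

/-- `xᵢ = Xᵢ / T` with `T = Y₀`. -/
noncomputable def xx (i : Fin n) : Laurent R (n + n) := AddMonoidAlgebra.single (eX n i - eY n 0) 1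

/-- `Yᵢ / T`. -/
noncomputable def yp (i : Fin n) : Laurent R (n + n) := AddMonoidAlgebra.single (eY n i - eY n 0) 1

/-- `1 / x₀`. -/
noncomputable def xinv : Laurent R (n + n) := AddMonoidAlgebra.single (eY n 0 - eX n 0) 1

/-- The `yᵢ` with `∑ xᵢ yᵢ = 1`. -/
noncomputable def yy (i : Fin n) : Laurent R (n + n) :=
  if i = 0 then (1 - ∑ j ∈ Finset.univ.erase 0, xx R n j * yp R n j) * xinv R n else yp R n i

/-- `T`. -/
noncomputable def tt : Laurent R (n + n) := AddMonoidAlgebra.single (eY n 0) 1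

/-- `T⁻¹`. -/
noncomputable def ti : Laurent R (n + n) := AddMonoidAlgebra.single (-eY n 0) 1

/-- The generators of the example. -/
def gens : Set (Laurent R (n + n)) :=
  Set.range (xx R n) ∪ Set.range (yy R n) ∪ {tt R n, ti R n}

/-- The graded subalgebra. -/
noncomputable def AA : Subalgebra R (Laurent R (n + n)) := Algebra.adjoin R (gens R n)

variable {R n}

omit [NeZero n] in
theorem totalDeg_eX (i : Fin n) : totalDeg (n + n) (eX n i) = 1 := by
  simp [totalDeg, eX, Finset.sum_pi_single']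

omit [NeZero n] in
theorem totalDeg_eY (i : Fin n) : totalDeg (n + n) (eY n i) = 1 := by
  simp [totalDeg, eY, Finset.sum_pi_single']

theorem xx_mem_deg (i : Fin n) : xx R n i ∈ degPart R (n + n) 0 := by
  have h := single_mem_degPart (R := R) (eX n i - eY n 0) 1
  rwa [map_sub, totalDeg_eX, totalDeg_eY, sub_self] at h

theorem yp_mem_deg (i : Fin n) : yp R n i ∈ degPart R (n + n) 0 := by
  have h := single_mem_degPart (R := R) (eY n i - eY n 0) 1
  rwa [map_sub, totalDeg_eY, totalDeg_eY, sub_self] at h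

theorem xinv_mem_deg : xinv R n ∈ degPart R (n + n) 0 := by
  have h := single_mem_degPart (R := R) (eY n 0 - eX n 0) 1
  rwa [map_sub, totalDeg_eY, totalDeg_eX, sub_self] at h

theorem one_mem_deg {m : ℕ} : (1 : Laurent R m) ∈ degPart R m 0 := by
  have := single_mem_degPart (R := R) (0 : Fin m → ℤ) 1
  rwa [map_zero] at this

theorem yy_mem_deg (i : Fin n) : yy R n i ∈ degPart R (n + n) 0 := by
  unfold yy
  split_ifs with h
  · have := mul_mem_degPart (k := 0) (l := 0) (f := 1 - ∑ j ∈ Finset.univ.erase 0, xx R n j * yp R n j)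
      (g := xinv R n) ?_ xinv_mem_deg
    · simpa using this
    · refine Submodule.sub_mem _ one_mem_deg (Submodule.sum_mem _ fun j _ => ?_)
      simpa using mul_mem_degPart (xx_mem_deg (R := R) j) (yp_mem_deg j)
  · exact yp_mem_deg i

theorem tt_mem_deg : tt R n ∈ degPart R (n + n) 1 := by
  have h := single_mem_degPart (R := R) (eY n 0) 1
  rwa [totalDeg_eY] at h

theorem ti_mem_deg : ti R n ∈ degPart R (n + n) (-1) := by
  have h := single_mem_degPart (R := R) (-eY n 0) 1
  rwa [map_neg, totalDeg_eY] at h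

theorem isGraded_AA : IsGraded (AA R n) := by
  refine isGraded_adjoin _ ?_
  rintro s ((⟨i, rfl⟩ | ⟨i, rfl⟩) | (rfl | rfl))
  · exact ⟨0, xx_mem_deg i⟩
  · exact ⟨0, yy_mem_deg i⟩
  · exact ⟨1, tt_mem_deg⟩
  · exact ⟨-1, ti_mem_deg⟩

theorem xx_mem (i : Fin n) : xx R n i ∈ AA R n :=
  Algebra.subset_adjoin (Or.inl (Or.inl ⟨i, rfl⟩))

theorem yy_mem (i : Fin n) : yy R n i ∈ AA R n :=
  Algebra.subset_adjoin (Or.inl (Or.inr ⟨i, rfl⟩))

theorem tt_mem : tt R n ∈ AA R n :=
  Algebra.subset_adjoin (Or.inr (Or.inl rfl))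

theorem ti_mem : ti R n ∈ AA R n :=
  Algebra.subset_adjoin (Or.inr (Or.inr rfl))

theorem tt_mul_ti : tt R n * ti R n = 1 := by
  simp [tt, ti, AddMonoidAlgebra.single_mul_single, AddMonoidAlgebra.one_def]

theorem xx_mul_xinv : xx R n 0 * xinv R n = 1 := by
  simp [xx, xinv, AddMonoidAlgebra.single_mul_single, AddMonoidAlgebra.one_def]

theorem sum_xx_yy : ∑ i, xx R n i * yy R n i = 1 := by
  rw [← Finset.add_sum_erase Finset.univ _ (Finset.mem_univ (0 : Fin n))]
  have h1 : xx R n 0 * yy R n 0 = 1 - ∑ j ∈ Finset.univ.erase 0, xx R n j * yp R n j := by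
    unfold yy
    rw [if_pos rfl, mul_left_comm, xx_mul_xinv, mul_one]
  have h2 : ∑ j ∈ Finset.univ.erase 0, xx R n j * yy R n j
      = ∑ j ∈ Finset.univ.erase 0, xx R n j * yp R n j := by
    refine Finset.sum_congr rfl fun j hj => ?_
    unfold yy
    rw [if_neg (Finset.ne_of_mem_erase hj)]
  rw [h1, h2, sub_add_cancel]

end example_

/-! ### Evaluation at real points -/

section evaluation

/-- The value of a Laurent monomial at a point with unit coordinates. -/
noncomputable def PP {m : ℕ} (q : Fin m → ℝˣ) (a : Fin m → ℤ) : ℝˣ := ∏ i, q i ^ a i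

theorem PP_add {m : ℕ} (q : Fin m → ℝˣ) (a b : Fin m → ℤ) : PP q (a + b) = PP q a * PP q b := by
  simp [PP, zpow_add, Finset.prod_mul_distrib]

theorem PP_sub {m : ℕ} (q : Fin m → ℝˣ) (a b : Fin m → ℤ) : PP q (a - b) = PP q a / PP q b := by
  have h := PP_add q (a - b) b
  rw [sub_add_cancel] at h
  rw [h, mul_div_cancel_right]

theorem PP_neg {m : ℕ} (q : Fin m → ℝˣ) (a : Fin m → ℤ) : PP q (-a) = (PP q a)⁻¹ := by
  have h := PP_sub q 0 a
  rw [zero_sub] at h
  rw [h]
  simp [PP]

theorem PP_single {m : ℕ} (q : Fin m → ℝˣ) (j : Fin m) : PP q (Pi.single j 1) = q j := by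
  unfold PP
  rw [Finset.prod_eq_single j]
  · simp
  · intro i _ hij
    simp [hij]
  · simp

/-- The value of Laurent monomials, as a monoid homomorphism. -/
noncomputable def monHom {m : ℕ} (q : Fin m → ℝˣ) : Multiplicative (Fin m → ℤ) →* ℝ where
  toFun a := (PP q (Multiplicative.toAdd a) : ℝ)
  map_one' := by simp [PP]
  map_mul' a b := by rw [toAdd_mul, PP_add, Units.val_mul]

variable {R : Type} [CommRing R]

/-- Evaluation of Laurent polynomials. -/
noncomputable def ev {m : ℕ} (φ : R →+* ℝ) (q : Fin m → ℝˣ) : Laurent R m →+* ℝ :=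
  AddMonoidAlgebra.liftNCRingHom φ (monHom q) (fun _ _ => Commute.all _ _)

theorem ev_single {m : ℕ} (φ : R →+* ℝ) (q : Fin m → ℝˣ) (a : Fin m → ℤ) (r : R) :
    ev φ q (AddMonoidAlgebra.single a r) = φ r * (PP q a : ℝ) := by
  unfold ev
  rw [AddMonoidAlgebra.liftNCRingHom_single]
  rfl

/-- A unit of `ℝ` attached to every real number. -/
noncomputable def uu (r : ℝ) : ℝˣ := if h : r = 0 then 1 else Units.mk0 r h

theorem uu_val {r : ℝ} (h : r ≠ 0) : (uu r : ℝ) = r := by
  simp [uu, h]

variable {n : ℕ} [NeZero n]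

/-- The point `Xᵢ = pᵢ`, `Yᵢ = pᵢ` (`i ≠ 0`), `T = Y₀ = 1`. -/
noncomputable def qq (p : Fin n → ℝ) : Fin (n + n) → ℝˣ :=
  Fin.append (fun i => uu (p i)) (fun i => if i = 0 then 1 else uu (p i))

theorem PP_eX (p : Fin n → ℝ) (i : Fin n) : PP (qq p) (eX n i) = uu (p i) := by
  rw [eX, PP_single, qq, Fin.append_left]

theorem PP_eY (p : Fin n → ℝ) (i : Fin n) :
    PP (qq p) (eY n i) = if i = 0 then 1 else uu (p i) := by
  rw [eY, PP_single, qq, Fin.append_right]

/-- An element of the Laurent ring which takes continuous values at the generic points of the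
sphere. -/
def Good (n : ℕ) [NeZero n] (φ : R →+* ℝ) (f : Laurent R (n + n)) : Prop :=
  ∃ F : (Fin n → ℝ) → ℝ, Continuous F ∧
    ∀ p : Fin n → ℝ, (∀ i, p i ≠ 0) → ∑ i, p i ^ 2 = 1 → ev φ (qq p) f = F p

variable (φ : R →+* ℝ)

theorem ev_xx (p : Fin n → ℝ) (hp : ∀ i, p i ≠ 0) (i : Fin n) : ev φ (qq p) (xx R n i) = p i := by
  unfold xx
  rw [ev_single, PP_sub, PP_eX, PP_eY, if_pos rfl, div_one, uu_val (hp i), map_one, one_mul]

theorem ev_yp (p : Fin n → ℝ) (hp : ∀ i, p i ≠ 0) (i : Fin n) (hi : i ≠ 0) :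
    ev φ (qq p) (yp R n i) = p i := by
  unfold yp
  rw [ev_single, PP_sub, PP_eY, PP_eY, if_pos rfl, if_neg hi, div_one, uu_val (hp i), map_one,
    one_mul]

theorem ev_xinv (p : Fin n → ℝ) (hp : ∀ i, p i ≠ 0) : ev φ (qq p) (xinv R n) = (p 0)⁻¹ := by
  unfold xinv
  rw [ev_single, PP_sub, PP_eX, PP_eY, if_pos rfl, one_div, Units.val_inv_eq_inv_val,
    uu_val (hp 0), map_one, one_mul]

theorem ev_yy (p : Fin n → ℝ) (hp : ∀ i, p i ≠ 0) (hs : ∑ i, p i ^ 2 = 1) (i : Fin n) :
    ev φ (qq p) (yy R n i) = p i := by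
  unfold yy
  split_ifs with h
  · subst h
    rw [map_mul, map_sub, map_one, map_sum, ev_xinv φ p hp]
    have h2 : ∑ j ∈ Finset.univ.erase 0, ev φ (qq p) (xx R n j * yp R n j)
        = ∑ j ∈ Finset.univ.erase 0, p j ^ 2 := by
      refine Finset.sum_congr rfl fun j hj => ?_
      rw [map_mul, ev_xx φ p hp, ev_yp φ p hp j (Finset.ne_of_mem_erase hj), sq]
    rw [h2, ← hs, ← Finset.add_sum_erase Finset.univ _ (Finset.mem_univ (0 : Fin n)),
      add_sub_cancel_right, sq, mul_assoc, mul_inv_cancel₀ (hp 0), mul_one]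
  · exact ev_yp φ p hp i h

theorem good_of_mem {f : Laurent R (n + n)} (hf : f ∈ AA R n) : Good n φ f := by
  refine Algebra.adjoin_induction (p := fun f _ => Good n φ f) ?_ ?_ ?_ ?_ hf
  · rintro s ((⟨i, rfl⟩ | ⟨i, rfl⟩) | (rfl | rfl))
    · exact ⟨fun p => p i, continuous_apply i, fun p hp hs => ev_xx φ p hp i⟩
    · exact ⟨fun p => p i, continuous_apply i, fun p hp hs => ev_yy φ p hp hs i⟩
    · refine ⟨fun _ => 1, continuous_const, fun p hp hs => ?_⟩
      unfold tt
      rw [ev_single, PP_eY, if_pos rfl, map_one, one_mul, Units.val_one]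
    · refine ⟨fun _ => 1, continuous_const, fun p hp hs => ?_⟩
      unfold ti
      rw [ev_single, PP_neg, PP_eY, if_pos rfl, map_one, one_mul, inv_one, Units.val_one]
  · intro r
    refine ⟨fun _ => φ r, continuous_const, fun p hp hs => ?_⟩
    have : algebraMap R (Laurent R (n + n)) r = AddMonoidAlgebra.single 0 r := rfl
    rw [this, ev_single]
    simp [PP]
  · rintro x y _ _ ⟨F, hF, hF'⟩ ⟨G, hG, hG'⟩
    exact ⟨fun p => F p + G p, hF.add hG, fun p hp hs => by rw [map_add, hF' p hp hs, hG' p hp hs]⟩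
  · rintro x y _ _ ⟨F, hF, hF'⟩ ⟨G, hG, hG'⟩
    exact ⟨fun p => F p * G p, hF.mul hG, fun p hp hs => by rw [map_mul, hF' p hp hs, hG' p hp hs]⟩

/-- Evaluation of matrices over `A`. -/
noncomputable def evM (p : Fin n → ℝ) : AA R n →+* ℝ := (ev φ (qq p)).comp (AA R n).val.toRingHom

theorem exists_continuous_matrix (g : GL (Fin n) (AA R n)) (hg : g ∈ E (AA R n) n) :
    ∃ G : (Fin n → ℝ) → Matrix (Fin n) (Fin n) ℝ, Continuous G ∧ (∀ p, (G p).det = 1) ∧
      ∀ p : Fin n → ℝ, (∀ i, p i ≠ 0) → ∑ i, p i ^ 2 = 1 →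
        (g : Matrix (Fin n) (Fin n) (AA R n)).map (evM φ p) = G p := by
  unfold E at hg
  induction hg using Subgroup.closure_induction with
  | mem g hg =>
    obtain ⟨i, j, hij, c, hc⟩ := hg
    obtain ⟨F, hF, hF'⟩ := good_of_mem (n := n) φ c.2
    refine ⟨fun p => 1 + Matrix.single i j (F p), ?_, ?_, ?_⟩
    · refine continuous_const.add ?_
      refine continuous_matrix fun a b => ?_
      by_cases hab : i = a ∧ j = b
      · obtain ⟨rfl, rfl⟩ := hab
        simpa using hF
      · simp only [Matrix.single_apply, if_neg hab]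
        exact continuous_const
    · intro p
      exact Matrix.det_transvection_of_ne i j hij (F p)
    · intro p hp hs
      rw [hc]
      ext a b
      by_cases hab : i = a ∧ j = b
      · obtain ⟨rfl, rfl⟩ := hab
        simp only [Matrix.map_apply, Matrix.add_apply, Matrix.single_apply_same, map_add]
        congr 1
        · by_cases h : i = j
          · exact absurd h hij
          · simp [h]
        · exact hF' p hp hs
      · simp only [Matrix.map_apply, Matrix.add_apply, Matrix.single_apply, if_neg hab, add_zero]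
        by_cases h : a = b
        · subst h; simp
        · simp [h]
  | one =>
    refine ⟨fun _ => 1, continuous_const, fun _ => Matrix.det_one, fun p _ _ => ?_⟩
    simp
  | mul x y _ _ hx hy =>
    obtain ⟨G, hG, hG1, hG2⟩ := hx
    obtain ⟨H, hH, hH1, hH2⟩ := hy
    refine ⟨fun p => G p * H p, hG.matrix_mul hH, fun p => ?_, fun p hp hs => ?_⟩
    · rw [Matrix.det_mul, hG1, hH1, one_mul]
    · rw [Units.val_mul, Matrix.map_mul, hG2 p hp hs, hH2 p hp hs]
  | inv x _ hx =>
    obtain ⟨G, hG, hG1, hG2⟩ := hx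
    refine ⟨fun p => (G p).adjugate, hG.matrix_adjugate, fun p => ?_, fun p hp hs => ?_⟩
    · rw [Matrix.det_adjugate, hG1, one_pow]
    · have h1 : ((x⁻¹ : GL (Fin n) (AA R n)) : Matrix (Fin n) (Fin n) (AA R n)).map (evM φ p)
          * G p = 1 := by
        rw [← hG2 p hp hs, ← Matrix.map_mul, ← Units.val_mul, inv_mul_cancel, Units.val_one,
          Matrix.map_one _ (map_zero _) (map_one _)]
      have h2 : G p * (G p).adjugate = 1 := by
        rw [Matrix.mul_adjugate, hG1, one_smul]
      calc ((x⁻¹ : GL (Fin n) (AA R n)) : Matrix (Fin n) (Fin n) (AA R n)).map (evM φ p)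
          = ((x⁻¹ : GL (Fin n) (AA R n)) : Matrix (Fin n) (Fin n) (AA R n)).map (evM φ p)
            * (G p * (G p).adjugate) := by rw [h2, mul_one]
        _ = (G p).adjugate := by rw [← mul_assoc, h1, one_mul]

end evaluation

/-! ### The topological argument -/

section topology

open Filter Topology

variable {n : ℕ} [NeZero n]

theorem generic_approx (F : (Fin n → ℝ) → ℝ) (hF : Continuous F) (j : Fin n)
    (h : ∀ p : Fin n → ℝ, (∀ i, p i ≠ 0) → ∑ i, p i ^ 2 = 1 → F p = p j)
    (p : Fin n → ℝ) (hs : ∑ i, p i ^ 2 = 1) : F p = p j := by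
  classical
  set s : Fin n → ℝ := fun i => if 0 ≤ p i then 1 else -1 with hsdef
  set c : ℝ → (Fin n → ℝ) := fun ε i => (p i + ε * s i) / Real.sqrt (∑ k, (p k + ε * s k) ^ 2)
    with hc
  have hne : ∀ ε : ℝ, 0 < ε → ∀ i, p i + ε * s i ≠ 0 := by
    intro ε hε i
    by_cases h0 : 0 ≤ p i
    · have : s i = 1 := by simp [hsdef, h0]
      rw [this]; intro h'; linarith
    · have : s i = -1 := by simp [hsdef, h0]
      rw [this]; intro h'; linarith [not_le.1 h0]
  have hpos : ∀ ε : ℝ, 0 < ε → 0 < ∑ k, (p k + ε * s k) ^ 2 := by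
    intro ε hε
    exact Finset.sum_pos (fun i _ => by have := hne ε hε i; positivity) ⟨0, Finset.mem_univ _⟩
  have hval : ∀ ε : ℝ, 0 < ε → F (c ε) = c ε j := by
    intro ε hε
    have h1 := hpos ε hε
    refine h (c ε) (fun i => ?_) ?_
    · exact div_ne_zero (hne ε hε i) (Real.sqrt_ne_zero'.2 h1)
    · simp only [hc, div_pow, ← Finset.sum_div]
      rw [Real.sq_sqrt h1.le, div_self h1.ne']
  have hcont : Tendsto c (𝓝[>] (0 : ℝ)) (𝓝 p) := by
    have hc0 : c 0 = p := by
      funext i
      simp [hc, hs]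
    have hcat : ContinuousAt c 0 := by
      refine continuousAt_pi.2 fun i => ?_
      refine ContinuousAt.div (by fun_prop) (by fun_prop) ?_
      simp [hs]
    have := hcat.tendsto
    rw [hc0] at this
    exact this.mono_left nhdsWithin_le_nhds
  have h1 : Tendsto (fun ε => F (c ε)) (𝓝[>] (0 : ℝ)) (𝓝 (F p)) :=
    (hF.tendsto p).comp hcont
  have h2 : Tendsto (fun ε => c ε j) (𝓝[>] (0 : ℝ)) (𝓝 (p j)) :=
    ((continuous_apply j).tendsto p).comp hcont
  have h3 : (fun ε => F (c ε)) =ᶠ[𝓝[>] (0 : ℝ)] fun ε => c ε j := by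
    filter_upwards [self_mem_nhdsWithin] with ε hε
    exact hval ε hε
  exact tendsto_nhds_unique (h1.congr' h3) h2

/-- There is no continuous matrix-valued map of determinant `1` whose first row is the identity
on the sphere. -/
theorem no_matrix (G : (Fin n → ℝ) → Matrix (Fin n) (Fin n) ℝ) (hG : Continuous G)
    (hdet : ∀ p, (G p).det = 1)
    (hrow : ∀ p : Fin n → ℝ, ∑ i, p i ^ 2 = 1 → ∀ j, G p 0 j = p j) : False := by
  set H : EuclideanSpace ℝ (Fin n) → EuclideanSpace ℝ (Fin n) :=
    fun x => WithLp.toLp 2 (fun j => G (WithLp.ofLp x) 0 j) with hH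
  have hHc : Continuous H := by
    refine (PiLp.continuous_toLp 2 _).comp ?_
    refine continuous_pi fun j => ?_
    exact (hG.comp (PiLp.continuous_ofLp 2 _)).matrix_elem 0 j
  have hH0 : ∀ x, H x ≠ 0 := by
    intro x hx
    have hz : ∀ j, G (WithLp.ofLp x) 0 j = 0 := by
      intro j
      have : (H x) j = 0 := by rw [hx]; rfl
      exact this
    have := Matrix.det_eq_zero_of_row_eq_zero (0 : Fin n) hz
    rw [hdet] at this
    exact one_ne_zero this
  have hHs : ∀ x : EuclideanSpace ℝ (Fin n), ‖x‖ = 1 → H x = x := by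
    intro x hx
    have h1 : ∑ i, (WithLp.ofLp x) i ^ 2 = 1 := by
      have := EuclideanSpace.real_norm_sq_eq x
      rw [hx, one_pow] at this
      exact this.symm
    ext j
    exact hrow _ h1 j
  set N : EuclideanSpace ℝ (Fin n) → EuclideanSpace ℝ (Fin n) :=
    fun x => (max 1 ‖x‖)⁻¹ • x with hN
  have hNc : Continuous N := by
    have h1 : Continuous fun x : EuclideanSpace ℝ (Fin n) => (max 1 ‖x‖)⁻¹ := by
      refine Continuous.inv₀ (by fun_prop) fun x => ?_
      have : (1 : ℝ) ≤ max 1 ‖x‖ := le_max_left _ _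
      positivity
    exact h1.smul continuous_id
  set f : EuclideanSpace ℝ (Fin n) → EuclideanSpace ℝ (Fin n) :=
    fun x => -(‖H (N x)‖⁻¹ • H (N x)) with hf
  have hfc : Continuous f := by
    have h1 : Continuous fun x : EuclideanSpace ℝ (Fin n) => ‖H (N x)‖⁻¹ :=
      Continuous.inv₀ (hHc.comp hNc).norm fun x => norm_ne_zero_iff.2 (hH0 _)
    exact (h1.smul (hHc.comp hNc)).neg
  have hfn : ∀ x, ‖f x‖ = 1 := by
    intro x
    rw [hf]
    simp only [norm_neg, norm_smul, norm_inv, norm_norm]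
    exact inv_mul_cancel₀ (norm_ne_zero_iff.2 (hH0 _))
  obtain ⟨x, hx⟩ := Pool.Agent.Helper728.Coag.Brouwer.brouwer f hfc 1 (fun x => (hfn x).le)
  have hx1 : ‖x‖ = 1 := by rw [← hx]; exact hfn x
  have hNx : N x = x := by
    rw [hN]
    simp [hx1]
  have hfx : f x = -x := by
    rw [hf]
    simp only [hNx, hHs x hx1, hx1, inv_one, one_smul]
  rw [hfx] at hx
  have h0 : x = 0 := by
    have h2 : (2 : ℝ) • x = 0 := by
      rw [two_smul]
      nth_rewrite 1 [← hx]
      simp
    exact (smul_eq_zero.1 h2).resolve_left two_ne_zero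
  rw [h0, norm_zero] at hx1
  exact zero_ne_one hx1

end topology

/-- The universal unimodular row is not elementary. -/
theorem firstRow_ne {R : Type} [CommRing R] (φ : R →+* ℝ) {n : ℕ} [NeZero n]
    (g : GL (Fin n) (AA R n)) (hg : g ∈ E (AA R n) n)
    (h : firstRow g = fun i => (⟨xx R n i, xx_mem i⟩ : AA R n)) : False := by
  obtain ⟨G, hG, hdet, hev⟩ := exists_continuous_matrix φ g hg
  refine no_matrix G hG hdet fun p hs j => ?_
  refine generic_approx (fun p => G p 0 j) (hG.matrix_elem 0 j) j (fun p hp hs => ?_) p hs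
  have h1 := congrFun h j
  show G p 0 j = p j
  rw [← hev p hp hs, Matrix.map_apply]
  have h2 : (g : Matrix (Fin n) (Fin n) (AA R n)) 0 j = ⟨xx R n j, xx_mem j⟩ := h1
  rw [h2]
  exact ev_xx φ p hp j

/-- **Negative answer to Q1, for every Krull dimension `d` and every `n ≥ max (d + 2) 3`.** -/
theorem result (d : ℕ) :
    ∃ (R : Type) (_ : CommRing R), IsNoetherianRing R ∧ ringKrullDim R = d ∧
      ∀ (n : ℕ) [NeZero n], max (d + 2) 3 ≤ n → HasCounterexample R n := by
  refine ⟨MvPolynomial (Fin d) ℝ, inferInstance, inferInstance, ?_, ?_⟩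
  · rw [MvPolynomial.ringKrullDim_of_isNoetherianRing]
    simp
  · intro n _ hn
    refine ⟨n + n, ?_, AA _ n, isGraded_AA, ?_⟩
    · have : 3 ≤ n := le_trans (le_max_right _ _) hn
      omega
    · intro hall
      obtain ⟨g, hg, h⟩ := hall (fun i => ⟨xx _ n i, xx_mem i⟩) (by
        refine ⟨fun i => ⟨yy _ n i, yy_mem i⟩, ?_⟩
        apply Subtype.ext
        push_cast
        exact sum_xx_yy)
      exact firstRow_ne (MvPolynomial.eval₂Hom (RingHom.id ℝ) (fun _ => 0)) g hg h

end Pool.Agent.Results.MP_aa4be7_al.ElementaryFails
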